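import Pool.Agent.Y202.U.Stm

/-! # Project Y202/U: the final statement from `S_FIN` -/

namespace Pool.Agent.Y202.U

open Finset Pool.Agent.W788.NV Filter Topology

theorem sa_of {V : Type} [Fintype V] (G : SimpleGraph V) (q : ℕ) (θ : ℝ) (Δ : ℕ) (hq : 2 ≤ q)
    (h0 : 0 < θ) (h1 : θ < 1) (hG : G.Connected) (h2 : 2 ≤ Fintype.card V)
    (hD : ∀ v, dg G v ≤ Δ) : SA G q θ Δ := by
  have hd := dg_pos G hG h2
  have : Nonempty V := hG.nonempty
  exact ⟨hq, h0, h1.le, hd, hD, (hd (Classical.arbitrary V)).trans (hD _)⟩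

theorem top1 (h : S_FIN) : ∀ (q : ℕ) (θ : ℝ) (Δ : ℕ) (ε η : ℝ), 2 ≤ q → 0 < θ → θ < 1 → 0 < ε →
      ε < 1 → 0 < η →
      ∃ n0 : ℕ, ∀ (V : Type) [Fintype V] [DecidableEq V] (G : SimpleGraph V)
        (μ : (V → Fin q) → ℝ), G.Connected → (∀ v, dg G v ≤ Δ) → n0 ≤ Fintype.card V →
        IsStat G q θ μ → ∀ x0 : V → Fin q,
        tmixU G q θ μ ε ≤ (1 + η) * tmix G q θ x0 μ ε := by
  intro q θ Δ ε η hq h0 h1 hε hε1 hη
  obtain ⟨n0, hn0⟩ := h q θ Δ ε η hq h0 h1.le hε hε1 hη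
  refine ⟨max n0 2, ?_⟩
  intro V _ _ G μ hG hD hn hμ x0
  have h2 : 2 ≤ Fintype.card V := (le_max_right _ _).trans hn
  exact hn0 V G x0 μ (sa_of G q θ Δ hq h0 h1 hG h2 hD) hμ ((le_max_left _ _).trans hn)

theorem top2 (h : S_FIN) : ∀ (q : ℕ) (θ : ℝ) (Δ : ℕ) (V : ℕ → Type) [∀ n, Fintype (V n)]
      [∀ n, DecidableEq (V n)]
      (G : ∀ n, SimpleGraph (V n)) (μ : ∀ n, (V n → Fin q) → ℝ),
      2 ≤ q → 0 < θ → θ < 1 → (∀ n, Fintype.card (V n) = n) →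
      (∀ n, 2 ≤ n → (G n).Connected) → (∀ n v, dg (G n) v ≤ Δ) →
      (∀ n, 2 ≤ n → IsStat (G n) q θ (μ n)) →
      ∀ ε : ℝ, 0 < ε → ε < 1 → ∃ δ : ℕ → ℝ, Tendsto δ atTop (𝓝 0) ∧
        ∀ᶠ n in atTop, tmixU (G n) q θ (μ n) ε ≤
          (1 + δ n) * ⨅ x0 : V n → Fin q, tmix (G n) q θ x0 (μ n) ε := by
  intro q θ Δ V _ _ G μ hq h0 h1 hc hG hD hμ ε hε hε1
  obtain ⟨C2, hC2⟩ := p_fin2 q θ Δ hq h0 h1.le ε hε hε1
  set I : ℕ → ℝ := fun n => ⨅ x0 : V n → Fin q, tmix (G n) q θ x0 (μ n) ε with hI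
  -- the infimum is positive
  have hlog : Tendsto (fun n : ℕ => Real.log n) atTop atTop :=
    Real.tendsto_log_atTop.comp tendsto_natCast_atTop_atTop
  have hne : ∀ n, Nonempty (V n → Fin q) := fun n => ⟨fun _ => ⟨0, by omega⟩⟩
  have hpos : ∀ᶠ n in atTop, 0 < I n := by
    filter_upwards [hlog.eventually (eventually_gt_atTop (20 * C2)), eventually_ge_atTop 3]
      with n h3 h4
    have := hne n
    have hd := dg_pos (G n) (hG n (by omega)) (by rw [hc]; omega)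
    have h5 : 1 / 20 * Real.log n - C2 ≤ I n := by
      refine le_ciInf fun x0 => ?_
      have := hC2 (V n) (G n) x0 (μ n) hd (hD n) (by rw [hc]; exact h4) (hμ n (by omega))
      rwa [hc] at this
    linarith
  have hle : ∀ η : ℝ, 0 < η → ∀ᶠ n in atTop, tmixU (G n) q θ (μ n) ε ≤ (1 + η) * I n := by
    intro η hη
    obtain ⟨n0, hn0⟩ := top1 h q θ Δ ε η hq h0 h1 hε hε1 hη
    filter_upwards [eventually_ge_atTop n0, eventually_ge_atTop 2] with n h3 h4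
    have := hne n
    have h5 : tmixU (G n) q θ (μ n) ε / (1 + η) ≤ I n := by
      refine le_ciInf fun x0 => ?_
      rw [div_le_iff₀ (by linarith), mul_comm]
      exact hn0 (V n) (G n) (μ n) (hG n h4) (hD n) (by rw [hc]; exact h3) (hμ n h4) x0
    rwa [div_le_iff₀ (by linarith), mul_comm] at h5
  refine ⟨fun n => max 0 (tmixU (G n) q θ (μ n) ε / I n - 1), ?_, ?_⟩
  · rw [Metric.tendsto_atTop]
    intro η hη
    obtain ⟨N, hN⟩ := ((hle (η / 2) (by linarith)).and hpos).exists_forall_of_atTop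
    refine ⟨N, fun n hn => ?_⟩
    obtain ⟨h3, h4⟩ := hN n hn
    rw [Real.dist_eq, sub_zero, abs_of_nonneg (le_max_left _ _)]
    refine max_lt hη ?_
    have : tmixU (G n) q θ (μ n) ε / I n ≤ 1 + η / 2 := by
      rw [div_le_iff₀ h4]; exact h3
    linarith
  · filter_upwards [hpos] with n h4
    have h5 : tmixU (G n) q θ (μ n) ε / I n ≤
        1 + max 0 (tmixU (G n) q θ (μ n) ε / I n - 1) := by
      have := le_max_right 0 (tmixU (G n) q θ (μ n) ε / I n - 1)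
      linarith
    rwa [div_le_iff₀ h4] at h5

end Pool.Agent.Y202.U
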