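import Pool.Agent.Y202.U.Fin
import Pool.Agent.Y202.U.Top
import Pool.Agent.Y839.U.C1
import Pool.Agent.Y448.U.RP
import Pool.Agent.Y290.U.MAJ
import Pool.Agent.Y355.U.DEC
import Pool.Agent.Y239.U.TWO
import Pool.Agent.Y974.U.W2
import Pool.Agent.Y447.U.WB
import Pool.Agent.Y458.U.UD
import Pool.Agent.Y500.U.L1
import Pool.Agent.Y708.U.L2
import Pool.Agent.Y285.U.L3
import Pool.Agent.Y220.U.L4
import Pool.Agent.Y417.U.LB

/-! # Project Y202/U: assembly -/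

namespace Pool.Agent.Y202.U

theorem p_c0 : S_C0 := Pool.Agent.Y839.U.c0
theorem p_c1 : S_C1 := Pool.Agent.Y839.U.c1 p_c0
theorem p_rp : S_RP := Pool.Agent.Y448.U.rp p_c0 p_c1
theorem p_maj : S_MAJ := Pool.Agent.Y290.U.maj p_c0 p_c1
theorem p_dec : S_DEC := Pool.Agent.Y355.U.dec p_c0
theorem p_blk : S_BLK := Pool.Agent.Y239.U.blk
theorem p_two : S_TWO := Pool.Agent.Y239.U.two p_blk
theorem p_tail : S_TAIL := Pool.Agent.Y239.U.tail p_blk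
theorem p_w2 : S_W2 := Pool.Agent.Y974.U.w2
theorem p_wb : S_WB := Pool.Agent.Y447.U.wb p_w2
theorem p_ud : S_UD := Pool.Agent.Y458.U.ud p_c0
theorem p_ge : S_GE := Pool.Agent.Y458.U.ge
theorem p_l1 : S_L1 := Pool.Agent.Y500.U.l1 p_ge
theorem p_l2 : S_L2 := Pool.Agent.Y708.U.l2 p_ge
theorem p_lz : S_LZ := Pool.Agent.Y285.U.lz p_w2 p_ge
theorem p_l3 : S_L3 := Pool.Agent.Y285.U.l3 p_w2 p_wb p_ge p_l2 p_lz
theorem p_l4 : S_L4 := Pool.Agent.Y220.U.l4 p_w2 p_wb p_ge p_l2 p_lz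
theorem p_l5 : S_L5 := Pool.Agent.Y417.U.l5 p_w2 p_wb p_ge p_l2 p_lz
theorem p_up : S_UP := up p_c0 p_rp p_maj p_dec p_two p_tail p_ud p_w2
theorem p_upi : S_UPI := upi p_up p_wb
theorem p_lb : S_LB := Pool.Agent.Y417.U.lb p_wb p_l1 p_l3 p_l4 p_l5
theorem p_fin : S_FIN := fin p_upi p_lb p_wb

end Pool.Agent.Y202.U
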