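import Pool.Agent.W788.NW.Asm

/-!
# Project Y202/U (MP_1c1c61_pr, Q2: the uniform initial state is asymptotically as fast as the best
deterministic one): definitions

Notation: `V` vertices, `dg G v` degree, configurations `x : V → Fin q`, moves
`e : (V × Fin q) ⊕ (V × V)` (`inl (v, c)` puts `c` at `v`; `inr (v, w)` copies `w` to `v`) with rates
`mrate G q θ e` and action `act e x`; `gf r m f` generator, `sg r m t` semigroup, `pt G q θ t`
semigroup on functions of configurations.
-/

namespace Pool.Agent.Y202.U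

open Finset Pool.Agent.W788.NV

/-! ## mixed differences -/

/-- the configuration equal to `c` on `T`, to `c'` on `S \ T` and to `x` outside of `S` -/
def mix {V : Type} [DecidableEq V] {q : ℕ} (S T : Finset V) (c c' x : V → Fin q) : V → Fin q :=
  fun v => if v ∈ T then c v else if v ∈ S then c' v else x v

/-- mixed difference of `f` over the sites of `S`, between the colours `c` and the colours `c'` -/
noncomputable def Dl {V : Type} [DecidableEq V] {q : ℕ} (S : Finset V) (c c' : V → Fin q)
    (f : (V → Fin q) → ℝ) (x : V → Fin q) : ℝ :=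
  ∑ T ∈ S.powerset, (-1 : ℝ) ^ (S \ T).card * f (mix S T c c' x)

/-- largest absolute value of the mixed differences over `S` at `x` -/
noncomputable def osc {V : Type} [DecidableEq V] {q : ℕ} (S : Finset V)
    (f : (V → Fin q) → ℝ) (x : V → Fin q) : ℝ :=
  ⨆ p : (V → Fin q) × (V → Fin q), |Dl S p.1 p.2 f x|

/-! ## the dual walks (source maps): `σ a = some v` if the output site `a` reads the input site
`v`, and `σ a = none` if the walk of `a` has been killed by noise -/

/-- one step of a dual walk -/
def fe {V : Type} [DecidableEq V] {q : ℕ} : (V × Fin q) ⊕ (V × V) → V → Option V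
  | .inl p, u => if u = p.1 then none else some u
  | .inr p, u => if u = p.1 then some p.2 else some u

/-- an earlier move (input side) -/
def opR {V : Type} [DecidableEq V] {q : ℕ} (e : (V × Fin q) ⊕ (V × V)) (σ : V → Option V) :
    V → Option V := fun a => (σ a).bind (fe e)

/-- a later move (output side) -/
def opL {V : Type} [DecidableEq V] {q : ℕ} (e : (V × Fin q) ⊕ (V × V)) (σ : V → Option V) :
    V → Option V := fun a => (fe e a).bind σ

/-- expectation at time `t` of a function of the source map -/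
noncomputable def src {V : Type} [Fintype V] [DecidableEq V] (G : SimpleGraph V) (q : ℕ) (θ : ℝ)
    (t : ℝ) (F : (V → Option V) → ℝ) : ℝ :=
  sg (mrate G q θ) (opR (V := V) (q := q)) t F some

/-- the walks from `S` are all alive, and occupy exactly the sites of `S0` -/
def Im {V : Type} (S S0 : Finset V) (σ : V → Option V) : Prop :=
  (∀ a ∈ S, ∃ v ∈ S0, σ a = some v) ∧ ∀ v ∈ S0, ∃ a ∈ S, σ a = some v

/-- probability of `Im S S0` at time `t` -/
noncomputable def pim {V : Type} [Fintype V] [DecidableEq V] (G : SimpleGraph V) (q : ℕ) (θ : ℝ)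
    (t : ℝ) (S S0 : Finset V) : ℝ := by
  classical
  exact src G q θ t (fun σ => if Im S S0 σ then 1 else 0)

/-- the walks from `S` are all alive at time `t` and occupy the two end points of an edge; weighted
by the rate of coalescence -/
noncomputable def Ws {V : Type} [Fintype V] [DecidableEq V] (G : SimpleGraph V) (q : ℕ) (θ : ℝ)
    (t : ℝ) (S : Finset V) : ℝ :=
  ∑ v, ∑ w, mrate G q θ (Sum.inr (v, w)) * pim G q θ t S {v, w}

/-- the same for two walks -/
noncomputable def Wp {V : Type} [Fintype V] [DecidableEq V] (G : SimpleGraph V) (q : ℕ) (θ : ℝ)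
    (t : ℝ) (a b : V) : ℝ := Ws G q θ t {a, b}

/-- the set of the output sites which read `v` -/
def bl {V : Type} [Fintype V] [DecidableEq V] (σ : V → Option V) (v : V) : Finset V :=
  univ.filter (fun a => σ a = some v)

/-- the square norm of the pair kernel -/
noncomputable def WW {V : Type} [Fintype V] [DecidableEq V] (G : SimpleGraph V) (q : ℕ) (θ : ℝ)
    (t : ℝ) : ℝ := ∑ a, ∑ b, (Wp G q θ t a b) ^ 2

/-! ## uniform initial state -/

/-- mean under the uniform law -/
noncomputable def un {V : Type} [Fintype V] [DecidableEq V] {q : ℕ} (f : (V → Fin q) → ℝ) : ℝ :=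
  (∑ x, f x) / (Fintype.card (V → Fin q) : ℝ)

/-- law at time `t` from the uniform initial state -/
noncomputable def lawU {V : Type} [Fintype V] [DecidableEq V] (G : SimpleGraph V) (q : ℕ) (θ : ℝ)
    (t : ℝ) : (V → Fin q) → ℝ := fun y => un (fun x => law G q θ x t y)

/-- mixing time from the uniform initial state to the law `μ` -/
noncomputable def tmixU {V : Type} [Fintype V] [DecidableEq V] (G : SimpleGraph V) (q : ℕ) (θ : ℝ)
    (μ : (V → Fin q) → ℝ) (ε : ℝ) : ℝ :=
  sInf {t : ℝ | 0 ≤ t ∧ tv (lawU G q θ t) μ ≤ ε}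

/-! ## one- and two-point functions -/

/-- centred indicator of the colour `c` at `v` -/
noncomputable def et {V : Type} {q : ℕ} (c : Fin q) (v : V) (x : V → Fin q) : ℝ :=
  (if x v = c then 1 else 0) - 1 / (q : ℝ)

/-- centred indicator of the equality of the colours at `a` and `b` -/
noncomputable def hh {V : Type} {q : ℕ} (a b : V) (x : V → Fin q) : ℝ :=
  (if x a = x b then 1 else 0) - 1 / (q : ℝ)

/-- one-point biases at time `t` -/
noncomputable def bi {V : Type} [Fintype V] [DecidableEq V] (G : SimpleGraph V) (q : ℕ) (θ : ℝ)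
    (x0 : V → Fin q) (t : ℝ) (c : Fin q) (v : V) : ℝ := pt G q θ t (et c v) x0

/-- square norm of the one-point biases -/
noncomputable def BB {V : Type} [Fintype V] [DecidableEq V] (G : SimpleGraph V) (q : ℕ) (θ : ℝ)
    (x0 : V → Fin q) (t : ℝ) : ℝ := ∑ c, ∑ v, (bi G q θ x0 t c v) ^ 2

/-- the quadratic statistic -/
noncomputable def ZZ {V : Type} [Fintype V] [DecidableEq V] (G : SimpleGraph V) (q : ℕ) (θ : ℝ)
    (t : ℝ) (x : V → Fin q) : ℝ :=
  ∑ a, ∑ b, (dg G a : ℝ) * dg G b * Wp G q θ t a b * hh a b x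

/-- rate of collision at `z` -/
noncomputable def rh {V : Type} [Fintype V] [DecidableEq V] (G : SimpleGraph V) (q : ℕ) (θ : ℝ)
    (t : ℝ) (z : V) : ℝ :=
  2 * (dg G z : ℝ) ^ 2 * ∑ b, mrate G q θ (Sum.inr (z, b)) * Wp G q θ t z b

/-- the collision term -/
noncomputable def RR {V : Type} [Fintype V] [DecidableEq V] (G : SimpleGraph V) (q : ℕ) (θ : ℝ)
    (x0 : V → Fin q) (t : ℝ) : ℝ :=
  ∫ u in (0 : ℝ)..t, ∑ z, rh G q θ (t + u) z * ∑ c, (bi G q θ x0 (t - u) c z) ^ 2

/-- standing assumptions -/
structure SA {V : Type} [Fintype V] (G : SimpleGraph V) (q : ℕ) (θ : ℝ) (Δ : ℕ) : Prop where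
  q2 : 2 ≤ q
  t0 : 0 < θ
  t1 : θ ≤ 1
  d1 : ∀ v, 1 ≤ dg G v
  dD : ∀ v, dg G v ≤ Δ
  D1 : 1 ≤ Δ

end Pool.Agent.Y202.U
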