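import Pool.Agent.Y202.U.Upi

/-! # Project Y202/U: the comparison of the mixing times -/

namespace Pool.Agent.Y202.U

open Finset Pool.Agent.W788.NV Filter Topology

theorem poly_exp (a c : ℝ) (hc : 0 < c) (k : ℕ) :
    Tendsto (fun L : ℝ => (1 + a * L) ^ k * Real.exp (-(c * L))) atTop (𝓝 0) := by
  have h1 := Polynomial.tendsto_div_exp_atTop
    (((1 : Polynomial ℝ) + Polynomial.C (a / c) * Polynomial.X) ^ k)
  have h2 : Tendsto (fun L : ℝ => c * L) atTop atTop := tendsto_id.const_mul_atTop hc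
  have h3 := h1.comp h2
  refine h3.congr (fun L => ?_)
  simp only [Function.comp, Polynomial.eval_pow, Polynomial.eval_add, Polynomial.eval_one,
    Polynomial.eval_mul, Polynomial.eval_C, Polynomial.eval_X]
  have : a / c * (c * L) = a * L := by field_simp
  rw [this, Real.exp_neg]
  rfl

/-- FIN -/
theorem fin (hUPI : S_UPI) (hLB : S_LB) (hB : S_WB) : S_FIN := by
  intro q θ Δ ε η hq h0 h1 hε hε1 hη
  obtain ⟨C2, hC2⟩ := p_fin2 q θ Δ hq h0 h1 ε hε hε1
  obtain ⟨CL, hCL0, hCL⟩ := hLB q θ Δ hq h0 h1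
  set α : ℝ := η / 80 with hα
  have hα0 : 0 < α := by positivity
  obtain ⟨k, hk⟩ := exists_nat_ge (4 / (θ * α))
  obtain ⟨C, hC0, hC⟩ := hUPI q θ Δ k hq h0 h1
  set β : ℝ := (k + 7) * (2 * Δ) / θ with hβ
  have hβ0 : 0 ≤ β := by positivity
  set CM : ℝ := CL / (1 - ε) with hCM
  have hCM0 : 0 ≤ CM := div_nonneg hCL0 (by linarith)
  set D : ℝ := (2 * Real.sqrt Δ) ^ (k + 1) with hD
  have hD0 : 0 ≤ D := by positivity
  set Φ : ℝ → ℝ := fun L => C * (Real.sqrt ((1 + 2 * β * L) ^ k * Real.exp (-(4 * θ * α * L)) *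
      ((Δ : ℝ) ^ 2 * CM)) +
    (2 / θ * L) * (Real.sqrt (2 ^ (k + 3)) * Real.exp (-(2 * L)) + D * Real.exp (-(1 * L))) +
    Real.exp (-(1 * L))) with hΦ
  have hΦ0 : Tendsto Φ atTop (𝓝 0) := by
    have t1 : Tendsto (fun L : ℝ => Real.sqrt ((1 + 2 * β * L) ^ k *
        Real.exp (-(4 * θ * α * L)) * ((Δ : ℝ) ^ 2 * CM))) atTop (𝓝 0) := by
      have a1 := (poly_exp (2 * β) (4 * θ * α) (by positivity) k).mul_const ((Δ : ℝ) ^ 2 * CM)
      rw [zero_mul] at a1
      have a2 := a1.sqrt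
      rwa [Real.sqrt_zero] at a2
    have t2 : ∀ c : ℝ, 0 < c → Tendsto (fun L : ℝ => (2 / θ * L) * Real.exp (-(c * L))) atTop
        (𝓝 0) := by
      intro c hc
      have a1 := poly_exp 1 c hc 1
      have a2 := poly_exp 1 c hc 0
      have a3 := (a1.sub a2).const_mul (2 / θ)
      rw [sub_zero, mul_zero] at a3
      refine a3.congr (fun L => ?_)
      simp only [pow_one, pow_zero]
      ring
    have t3 : Tendsto (fun L : ℝ => Real.exp (-(1 * L))) atTop (𝓝 0) := by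
      have a2 := poly_exp 1 1 one_pos 0
      refine a2.congr (fun L => ?_)
      simp
    have t4 := ((t2 2 two_pos).const_mul (Real.sqrt (2 ^ (k + 3)))).add ((t2 1 one_pos).const_mul D)
    have t5 := ((t1.add t4).add t3).const_mul C
    simp only [mul_zero, add_zero] at t5
    refine t5.congr (fun L => ?_)
    rw [hΦ]
    ring
  -- conditions on `n`
  have hlog : Tendsto (fun n : ℕ => Real.log n) atTop atTop :=
    Real.tendsto_log_atTop.comp tendsto_natCast_atTop_atTop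
  have ev1 : ∀ᶠ L : ℝ in atTop, Φ L ≤ ε := hΦ0.eventually (ge_mem_nhds hε)
  have ev2 : ∀ᶠ L : ℝ in atTop, 2 + 2 * α * L ≤ η * (1 / 20 * L - C2) := by
    filter_upwards [eventually_ge_atTop ((2 + η * C2) / (η / 40))] with L hL
    rw [div_le_iff₀ (by positivity)] at hL
    rw [hα]
    linarith
  have ev3 : ∀ᶠ L : ℝ in atTop, 2 * Real.sqrt Δ * Real.exp (-(θ * α / 2 * L)) ≤
      min 1 (θ / (4 * (Δ + 1))) := by
    have a1 : Tendsto (fun L : ℝ => 2 * Real.sqrt Δ * Real.exp (-(θ * α / 2 * L))) atTop (𝓝 0) := by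
      have a2 := (poly_exp 1 (θ * α / 2) (by positivity) 0).const_mul (2 * Real.sqrt Δ)
      rw [mul_zero] at a2
      refine a2.congr (fun L => ?_)
      simp
    have : (0 : ℝ) < min 1 (θ / (4 * (Δ + 1))) := lt_min one_pos (by positivity)
    exact a1.eventually (ge_mem_nhds this)
  have ev4 : ∀ᶠ L : ℝ in atTop, (2 : ℝ) ≤ L := eventually_ge_atTop 2
  have evn := hlog.eventually (ev1.and (ev2.and (ev3.and ev4)))
  obtain ⟨n0, hn0⟩ := (evn.and (eventually_ge_atTop 3)).exists_forall_of_atTop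
  refine ⟨n0, ?_⟩
  intro V _ _ G x0 μ hS hμ hcard
  obtain ⟨⟨c1, c2, c3, c4⟩, c5⟩ := hn0 _ hcard
  set n : ℝ := (Fintype.card V : ℝ) with hn
  set L : ℝ := Real.log n with hL
  have hn3 : (3 : ℝ) ≤ n := by rw [hn]; exact_mod_cast c5
  have hnpos : 0 < n := by linarith
  have hnL : n = Real.exp L := (Real.exp_log hnpos).symm
  have hL0 : 0 ≤ L := by linarith
  have hlow := hC2 V G x0 μ hS.d1 hS.dD c5 hμ
  set τ : ℝ := tmix G q θ x0 μ ε with hτ
  -- a time close to the mixing time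
  have hne := set_nonempty G q θ Δ (by omega) h0 h1 hS.d1 hS.dD x0 μ hμ ε hε
  obtain ⟨t', ht', htlt⟩ := exists_lt_of_csInf_lt hne (show tmix G q θ x0 μ ε < τ + 1 by linarith)
  have hWt : WW G q θ t' ≤ CM :=
    hCL V G x0 μ hS hμ t' (1 - ε) ht'.1 (by linarith) (by linarith) (by linarith [ht'.2])
  set t1 : ℝ := t' + α * L with ht1
  have hαL : 0 ≤ α * L := by positivity
  have hW1 : WW G q θ t1 ≤ (Δ : ℝ) ^ 2 * Real.exp (-4 * θ * (α * L)) * CM := by
    have a1 := WW_decay hS hB t' (α * L) ht'.1 hαL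
    refine a1.trans (mul_le_mul_of_nonneg_left hWt (by positivity))
  -- parameters
  set u : ℝ := 2 * Real.sqrt Δ * Real.exp (-(θ * α / 2 * L)) with hu
  have hu0 : 0 ≤ u := by positivity
  have hu1 : u ≤ 1 := c3.trans (min_le_left _ _)
  have hu2 : 4 * u * Δ ≤ θ := by
    have a1 : u ≤ θ / (4 * (Δ + 1)) := c3.trans (min_le_right _ _)
    rw [le_div_iff₀ (by positivity)] at a1
    nlinarith
  have hu3 : 4 * Δ * Real.exp (-θ * (α * L)) ≤ u ^ 2 := by
    rw [hu, mul_pow, mul_pow, Real.sq_sqrt (by positivity)]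
    have a1 : Real.exp (-(θ * α / 2 * L)) ^ 2 = Real.exp (-θ * (α * L)) := by
      rw [← Real.exp_nat_mul]; congr 1; push_cast; ring
    rw [a1]
    norm_num
  have hmain := hC V G μ hS hμ t1 (t1 + 2 / θ * L) (α * L) u (β * L) (by linarith [ht'.1])
    (by have : 0 ≤ 2 / θ * L := by positivity
        linarith) hαL (by positivity) hu0 hu1 hu2 hu3
  have hfinal : tv (lawU G q θ (t1 + 1 + α * L)) μ ≤ ε := by
    refine hmain.trans (le_trans ?_ c1)
    rw [hΦ]
    dsimp only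
    refine mul_le_mul_of_nonneg_left ?_ hC0
    have b1 : Real.sqrt ((1 + 2 * (β * L)) ^ k * WW G q θ t1) ≤
        Real.sqrt ((1 + 2 * β * L) ^ k * Real.exp (-(4 * θ * α * L)) * ((Δ : ℝ) ^ 2 * CM)) := by
      apply Real.sqrt_le_sqrt
      have a1 : (1 + 2 * (β * L)) ^ k * WW G q θ t1 ≤ (1 + 2 * (β * L)) ^ k *
          ((Δ : ℝ) ^ 2 * Real.exp (-4 * θ * (α * L)) * CM) :=
        mul_le_mul_of_nonneg_left hW1 (by positivity)
      refine a1.trans (le_of_eq ?_)
      have a2 : -4 * θ * (α * L) = -(4 * θ * α * L) := by ring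
      rw [a2]
      ring
    have b2 : Real.sqrt ((n + 1) ^ (k + 3) * Real.exp (-θ * (β * L) / (2 * Δ))) ≤
        Real.sqrt (2 ^ (k + 3)) * Real.exp (-(2 * L)) := by
      have a0 : (0 : ℝ) < Δ := by exact_mod_cast hS.D1
      have a1 : -θ * (β * L) / (2 * Δ) = -((k + 7 : ℝ) * L) := by
        rw [hβ]; field_simp
      rw [a1]
      have a2 : (n + 1) ^ (k + 3) ≤ (2 * n) ^ (k + 3) :=
        pow_le_pow_left₀ (by positivity) (by linarith) _
      have a3 : (n + 1) ^ (k + 3) * Real.exp (-((k + 7 : ℝ) * L)) ≤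
          2 ^ (k + 3) * (Real.exp (-(2 * L))) ^ 2 := by
        refine (mul_le_mul_of_nonneg_right a2 (Real.exp_pos _).le).trans (le_of_eq ?_)
        rw [mul_pow, hnL, ← Real.exp_nat_mul, ← Real.exp_nat_mul, mul_assoc, ← Real.exp_add]
        congr 2
        push_cast
        ring
      refine (Real.sqrt_le_sqrt a3).trans (le_of_eq ?_)
      rw [Real.sqrt_mul (by positivity), Real.sqrt_sq (Real.exp_pos _).le]
    have b3 : u ^ (k + 1) * n ≤ D * Real.exp (-(1 * L)) := by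
      rw [hu, mul_pow, ← hD, hnL, ← Real.exp_nat_mul, mul_assoc, ← Real.exp_add]
      refine mul_le_mul_of_nonneg_left ?_ hD0
      apply Real.exp_le_exp.mpr
      have a1 : 4 ≤ (k : ℝ) * (θ * α) := by
        rwa [div_le_iff₀ (by positivity)] at hk
      have a2 : 4 * L ≤ (k : ℝ) * (θ * α) * L := mul_le_mul_of_nonneg_right a1 hL0
      have a3 : 0 ≤ θ * α * L := mul_nonneg (mul_nonneg h0.le hα0.le) hL0
      have a4 : ((k + 1 : ℕ) : ℝ) * -(θ * α / 2 * L) + L =
          -((k : ℝ) * (θ * α) * L) / 2 - (θ * α * L) / 2 + L := by push_cast; ring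
      rw [a4]
      linarith
    have b4 : n * Real.exp (-θ * (t1 + 2 / θ * L)) ≤ Real.exp (-(1 * L)) := by
      rw [hnL, ← Real.exp_add]
      apply Real.exp_le_exp.mpr
      have a1 : θ * (2 / θ * L) = 2 * L := by field_simp
      have a2 : 0 ≤ θ * t1 := mul_nonneg h0.le (by linarith [ht'.1])
      have a3 : L + -θ * (t1 + 2 / θ * L) = L - θ * t1 - θ * (2 / θ * L) := by ring
      rw [a3, a1]
      linarith
    have b5 : t1 + 2 / θ * L - t1 = 2 / θ * L := by ring
    rw [b5]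
    have b6 : 0 ≤ 2 / θ * L := by positivity
    have b7 := mul_le_mul_of_nonneg_left (add_le_add b2 b3) b6
    linarith
  have hle : tmixU G q θ μ ε ≤ t1 + 1 + α * L := by
    unfold tmixU
    apply csInf_le
    · exact ⟨0, fun t ht => ht.1⟩
    · exact ⟨by linarith [ht'.1], hfinal⟩
  have hτ1 : η * (1 / 20 * L - C2) ≤ η * τ := mul_le_mul_of_nonneg_left hlow hη.le
  linarith

end Pool.Agent.Y202.U
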