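import Pool.Agent.Y202.U.Defs

/-!
# Project Y202/U: the statements of the parts
-/

namespace Pool.Agent.Y202.U

open Finset Pool.Agent.W788.NV

/-! ## mixed differences -/

/-- C0: elementary rules -/
def S_C0 : Prop := ∀ (V : Type) [Fintype V] [DecidableEq V] (q : ℕ) (S : Finset V)
    (c c' : V → Fin q) (f : (V → Fin q) → ℝ) (x : V → Fin q),
    (∀ a, a ∉ S → Dl (insert a S) c c' f x =
      Dl S c c' f (Function.update x a (c a)) - Dl S c c' f (Function.update x a (c' a))) ∧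
    (∀ a ∈ S, ∀ d, Dl S c c' f (Function.update x a d) = Dl S c c' f x) ∧
    (∀ d d' : V → Fin q, (∀ a ∈ S, d a = c a ∧ d' a = c' a) → Dl S d d' f x = Dl S c c' f x) ∧
    (∀ (B : ℝ), (∀ y, |f y| ≤ B) → |Dl S c c' f x| ≤ 2 ^ S.card * B) ∧
    |Dl S c c' f x| ≤ osc S f x ∧ 0 ≤ osc S f x

/-- C1: commutation of the mixed differences and of the generator -/
def S_C1 : Prop := ∀ (V : Type) [Fintype V] [DecidableEq V] (G : SimpleGraph V) (q : ℕ) (θ : ℝ)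
    (Δ : ℕ), SA G q θ Δ → ∀ (S : Finset V) (c c' : V → Fin q) (f : (V → Fin q) → ℝ)
    (x : V → Fin q),
    Dl S c c' (gf (mrate G q θ) (act (V := V) (q := q)) f) x =
      gf (mrate G q θ) (act (V := V) (q := q)) (Dl S c c' f) x - S.card * Dl S c c' f x +
      ∑ a ∈ S, ∑ v ∈ Sᶜ, mrate G q θ (Sum.inr (v, a)) *
        (Dl (insert v (S.erase a)) (Function.update c v (c a)) (Function.update c' v (c' a)) f x +
          Dl (insert v S) (Function.update c v (c a))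
            (Function.update (Function.update c' a (x a)) v (x a)) f x -
          Dl (insert v S) (Function.update (Function.update c a (c' a)) v (c' a))
            (Function.update (Function.update c' a (x a)) v (x a)) f x)

/-- RP: pointwise bound of all the mixed differences of `pt 1 f`, for bounded `f` -/
def S_RP : Prop := ∀ (q : ℕ) (θ : ℝ) (Δ : ℕ), 2 ≤ q → 0 < θ → θ ≤ 1 → ∃ κ : ℝ, 0 < κ ∧ κ ≤ 1 ∧
    ∀ (V : Type) [Fintype V] [DecidableEq V] (G : SimpleGraph V), SA G q θ Δ →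
    ∀ f : (V → Fin q) → ℝ, (∀ x, |f x| ≤ 1) → ∀ x,
      ∑ S : Finset V, κ ^ S.card * (osc S (pt G q θ 1 f) x) ^ 2 ≤ 1

/-- MAJ: the mixed differences of `pt s f` in terms of those of `f` -/
def S_MAJ : Prop := ∀ (V : Type) [Fintype V] [DecidableEq V] (G : SimpleGraph V) (q : ℕ) (θ : ℝ)
    (Δ : ℕ), SA G q θ Δ → ∀ (S0 : Finset V) (c c' : V → Fin q) (f : (V → Fin q) → ℝ)
    (x : V → Fin q) (s : ℝ), 0 ≤ s →
    2 ^ S0.card * |Dl S0 c c' (pt G q θ s f) x| ≤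
      ∑ S : Finset V, 2 ^ S.card * pim G q θ s S S0 * pt G q θ s (osc S f) x

/-- DEC: decay of the mixed differences -/
def S_DEC : Prop := ∀ (V : Type) [Fintype V] [DecidableEq V] (G : SimpleGraph V) (q : ℕ) (θ : ℝ)
    (Δ : ℕ), SA G q θ Δ → ∀ (S : Finset V) (f : (V → Fin q) → ℝ), (∀ x, |f x| ≤ 1) →
    ∀ (x : V → Fin q) (r : ℝ), 0 ≤ r →
    osc S (pt G q θ r f) x ≤ (2 * Δ * Real.exp (-θ * r)) ^ S.card

/-! ## the dual walks -/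

/-- BLK: size of the blocks -/
def S_BLK : Prop := ∀ (V : Type) [Fintype V] [DecidableEq V] (G : SimpleGraph V) (q : ℕ) (θ : ℝ)
    (Δ : ℕ), SA G q θ Δ → ∀ (v : V) (t : ℝ), 0 ≤ t →
    (∀ l : ℝ, 0 ≤ l → 2 * l * Δ ≤ θ →
      src G q θ t (fun σ => Real.exp (l * ((bl σ v).card : ℝ))) ≤ Real.exp (l * Δ)) ∧
    (∀ M : ℝ, 0 ≤ M → src G q θ t (fun σ => if M < ((bl σ v).card : ℝ) then 1 else 0) ≤
      Real.exp (θ / 2 - θ * M / (2 * Δ)))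

/-- TWO: the kernels of small sets, in terms of the pair kernel -/
def S_TWO : Prop := ∀ (V : Type) [Fintype V] [DecidableEq V] (G : SimpleGraph V) (q : ℕ) (θ : ℝ)
    (Δ : ℕ), SA G q θ Δ → ∀ (k : ℕ) (t K : ℝ), 0 ≤ t → 0 ≤ K →
    ∑ S : Finset V, (if S.card ≤ k then (Ws G q θ t S) ^ 2 else 0) ≤
      (1 + 2 * K) ^ k * WW G q θ t +
        4 * ((Fintype.card V : ℝ) + 1) ^ (k + 3) * Real.exp (θ / 2 - θ * K / (2 * Δ))

/-- TAIL: the kernels of large sets -/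
def S_TAIL : Prop := ∀ (V : Type) [Fintype V] [DecidableEq V] (G : SimpleGraph V) (q : ℕ) (θ : ℝ)
    (Δ : ℕ), SA G q θ Δ → ∀ (k : ℕ) (t u : ℝ), 0 ≤ t → 0 ≤ u → u ≤ 1 → 4 * u * Δ ≤ θ →
    ∑ S : Finset V, (if k < S.card then u ^ (2 * S.card) * Ws G q θ t S else 0) ≤
      u ^ (k + 1) * Fintype.card V * Real.exp (θ / 2)

/-- W2: the evolution of the pair kernel -/
def S_W2 : Prop := ∀ (V : Type) [Fintype V] [DecidableEq V] (G : SimpleGraph V) (q : ℕ) (θ : ℝ)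
    (Δ : ℕ), SA G q θ Δ →
    (∀ t S, 0 ≤ t → 0 ≤ Ws G q θ t S) ∧
    (∀ t a b, Wp G q θ t a b = Wp G q θ t b a) ∧
    (∀ t a, Wp G q θ t a a = 0) ∧
    (∀ a b, a ≠ b → Wp G q θ 0 a b =
      mrate G q θ (Sum.inr (a, b)) + mrate G q θ (Sum.inr (b, a))) ∧
    (∀ t a b, a ≠ b → HasDerivAt (fun t => Wp G q θ t a b)
      (-2 * Wp G q θ t a b + ∑ a', mrate G q θ (Sum.inr (a, a')) * Wp G q θ t a' b +
        ∑ b', mrate G q θ (Sum.inr (b, b')) * Wp G q θ t a b') t)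

/-- WB: bounds on the pair kernel -/
def S_WB : Prop := ∀ (V : Type) [Fintype V] [DecidableEq V] (G : SimpleGraph V) (q : ℕ) (θ : ℝ)
    (Δ : ℕ), SA G q θ Δ → ∀ (t u : ℝ), 0 ≤ t → 0 ≤ u →
    (∀ a, ∑ b, (dg G b : ℝ) * Wp G q θ t a b ≤ 4 * Δ ^ 2) ∧
    (∀ a b, Real.exp (-2 * u) * Wp G q θ t a b ≤ Wp G q θ (t + u) a b) ∧
    ∑ a, ∑ b, (dg G a : ℝ) * dg G b * (Wp G q θ (t + u) a b) ^ 2 ≤
      Real.exp (-4 * θ * u) * ∑ a, ∑ b, (dg G a : ℝ) * dg G b * (Wp G q θ t a b) ^ 2 ∧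
    ∑ a, ∑ b, (dg G a : ℝ) * dg G b *
        (mrate G q θ (Sum.inr (a, b)) + mrate G q θ (Sum.inr (b, a))) * Wp G q θ (2 * t) a b =
      ∑ a, ∑ b, (dg G a : ℝ) * dg G b * (Wp G q θ t a b) ^ 2

/-! ## the upper bound -/

/-- UD: derivative at the uniform law -/
def S_UD : Prop := ∀ (V : Type) [Fintype V] [DecidableEq V] (G : SimpleGraph V) (q : ℕ) (θ : ℝ)
    (Δ : ℕ), SA G q θ Δ → ∀ (f : (V → Fin q) → ℝ),
    un (gf (mrate G q θ) (act (V := V) (q := q)) f) =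
      ∑ v, ∑ w, mrate G q θ (Sum.inr (v, w)) * (1 / (2 * (q : ℝ) ^ 2) *
        ∑ d : Fin q, ∑ d' : Fin q, un (Dl {v, w} (fun _ => d) (fun _ => d') f))

/-- UP: the upper bound for the derivative -/
def S_UP : Prop := ∀ (q : ℕ) (θ : ℝ) (Δ k : ℕ), 2 ≤ q → 0 < θ → θ ≤ 1 → ∃ C : ℝ, 0 ≤ C ∧
    ∀ (V : Type) [Fintype V] [DecidableEq V] (G : SimpleGraph V), SA G q θ Δ →
    ∀ f : (V → Fin q) → ℝ, (∀ x, |f x| ≤ 1) → ∀ (s r u K : ℝ), 0 ≤ s → 0 ≤ r → 0 ≤ K → 0 ≤ u →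
    u ≤ 1 → 4 * u * Δ ≤ θ → 4 * Δ * Real.exp (-θ * r) ≤ u ^ 2 →
    |un (gf (mrate G q θ) (act (V := V) (q := q)) (pt G q θ s (pt G q θ (1 + r) f)))| ≤
      C * (Real.sqrt ((1 + 2 * K) ^ k * WW G q θ s +
        ((Fintype.card V : ℝ) + 1) ^ (k + 3) * Real.exp (-θ * K / (2 * Δ))) +
        u ^ (k + 1) * Fintype.card V)

/-- UPI: the upper bound for the distance to the stationary law -/
def S_UPI : Prop := ∀ (q : ℕ) (θ : ℝ) (Δ k : ℕ), 2 ≤ q → 0 < θ → θ ≤ 1 → ∃ C : ℝ, 0 ≤ C ∧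
    ∀ (V : Type) [Fintype V] [DecidableEq V] (G : SimpleGraph V) (μ : (V → Fin q) → ℝ),
    SA G q θ Δ → IsStat G q θ μ →
    ∀ (t T r u K : ℝ), 0 ≤ t → t ≤ T → 0 ≤ r → 0 ≤ K → 0 ≤ u →
    u ≤ 1 → 4 * u * Δ ≤ θ → 4 * Δ * Real.exp (-θ * r) ≤ u ^ 2 →
    tv (lawU G q θ (t + 1 + r)) μ ≤
      C * (Real.sqrt ((1 + 2 * K) ^ k * WW G q θ t) +
        (T - t) * (Real.sqrt (((Fintype.card V : ℝ) + 1) ^ (k + 3) *
          Real.exp (-θ * K / (2 * Δ))) + u ^ (k + 1) * Fintype.card V) +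
        Fintype.card V * Real.exp (-θ * T))

/-! ## the lower bound -/

/-- GE: generator on the one- and two-point functions -/
def S_GE : Prop := ∀ (V : Type) [Fintype V] [DecidableEq V] (G : SimpleGraph V) (q : ℕ) (θ : ℝ)
    (Δ : ℕ), SA G q θ Δ → ∀ (x : V → Fin q),
    (∀ (c : Fin q) (v : V), gf (mrate G q θ) (act (V := V) (q := q)) (et c v) x =
      -et c v x + ∑ w, mrate G q θ (Sum.inr (v, w)) * et c w x) ∧
    (∀ a b : V, a ≠ b → gf (mrate G q θ) (act (V := V) (q := q)) (hh a b) x =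
      -2 * hh a b x + ∑ a', mrate G q θ (Sum.inr (a, a')) * hh a' b x +
        ∑ b', mrate G q θ (Sum.inr (b, b')) * hh a b' x)

/-- L1: the one-point biases are bounded as long as the law is not singular to the limit -/
def S_L1 : Prop := ∀ (q : ℕ) (θ : ℝ) (Δ : ℕ), 2 ≤ q → 0 < θ → θ ≤ 1 → ∃ C : ℝ, 0 ≤ C ∧
    ∀ (V : Type) [Fintype V] [DecidableEq V] (G : SimpleGraph V) (x0 : V → Fin q)
    (μ : (V → Fin q) → ℝ), SA G q θ Δ → IsStat G q θ μ → ∀ t : ℝ, 0 ≤ t →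
    (1 - tv (law G q θ x0 t) μ) * BB G q θ x0 t ≤ C

/-- L2: the two-point functions -/
def S_L2 : Prop := ∀ (V : Type) [Fintype V] [DecidableEq V] (G : SimpleGraph V) (q : ℕ) (θ : ℝ)
    (Δ : ℕ), SA G q θ Δ → ∀ (μ : (V → Fin q) → ℝ), IsStat G q θ μ →
    (∀ a b, 0 ≤ mean μ (hh (q := q) a b)) ∧
    (∀ a, ∑ b, mean μ (hh (q := q) a b) ≤ Δ ^ 2 / θ) ∧
    (∀ (x0 : V → Fin q) (t : ℝ), 0 ≤ t → ∀ a b, pt G q θ t (hh a b) x0 ≤
      mean μ (hh (q := q) a b) + ∑ c, bi G q θ x0 t c a * bi G q θ x0 t c b)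

/-- LZ: the semigroup on the quadratic statistics -/
def S_LZ : Prop := ∀ (V : Type) [Fintype V] [DecidableEq V] (G : SimpleGraph V) (q : ℕ) (θ : ℝ)
    (Δ : ℕ), SA G q θ Δ → ∀ (t u : ℝ), 0 ≤ t → 0 ≤ u → ∀ x : V → Fin q,
    pt G q θ u (ZZ G q θ t) x = ZZ G q θ (t + u) x +
      (1 - 1 / (q : ℝ)) * ∫ r in t..(t + u), ∑ a, ∑ b, (dg G a : ℝ) * dg G b *
        (mrate G q θ (Sum.inr (a, b)) + mrate G q θ (Sum.inr (b, a))) * Wp G q θ r a b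

/-- L3: the signal -/
def S_L3 : Prop := ∀ (q : ℕ) (θ : ℝ) (Δ : ℕ), 2 ≤ q → 0 < θ → θ ≤ 1 →
    ∃ c C : ℝ, 0 < c ∧ 0 ≤ C ∧
    ∀ (V : Type) [Fintype V] [DecidableEq V] (G : SimpleGraph V) (x0 : V → Fin q)
    (μ : (V → Fin q) → ℝ), SA G q θ Δ → IsStat G q θ μ → ∀ t : ℝ, 0 ≤ t →
    c * WW G q θ t + RR G q θ x0 t - C * BB G q θ x0 t ≤
      mean μ (ZZ G q θ t) - mean (law G q θ x0 t) (ZZ G q θ t) ∧ 0 ≤ RR G q θ x0 t

/-- L4: the variance from a deterministic state -/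
def S_L4 : Prop := ∀ (q : ℕ) (θ : ℝ) (Δ : ℕ), 2 ≤ q → 0 < θ → θ ≤ 1 → ∃ C : ℝ, 0 ≤ C ∧
    ∀ (V : Type) [Fintype V] [DecidableEq V] (G : SimpleGraph V) (x0 : V → Fin q),
    SA G q θ Δ → ∀ t : ℝ, 0 ≤ t →
    vr (law G q θ x0 t) (ZZ G q θ t) ≤
      C * (WW G q θ t + BB G q θ x0 t + RR G q θ x0 t)

/-- L5: the variance under the stationary law -/
def S_L5 : Prop := ∀ (q : ℕ) (θ : ℝ) (Δ : ℕ), 2 ≤ q → 0 < θ → θ ≤ 1 → ∃ C : ℝ, 0 ≤ C ∧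
    ∀ (V : Type) [Fintype V] [DecidableEq V] (G : SimpleGraph V) (μ : (V → Fin q) → ℝ),
    SA G q θ Δ → IsStat G q θ μ → ∀ t : ℝ, 0 ≤ t →
    vr μ (ZZ G q θ t) ≤ C * WW G q θ t

/-- LB: the lower bound -/
def S_LB : Prop := ∀ (q : ℕ) (θ : ℝ) (Δ : ℕ), 2 ≤ q → 0 < θ → θ ≤ 1 → ∃ C : ℝ, 0 ≤ C ∧
    ∀ (V : Type) [Fintype V] [DecidableEq V] (G : SimpleGraph V) (x0 : V → Fin q)
    (μ : (V → Fin q) → ℝ), SA G q θ Δ → IsStat G q θ μ → ∀ t δ : ℝ, 0 ≤ t → 0 < δ → δ ≤ 1 →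
    tv (law G q θ x0 t) μ ≤ 1 - δ → WW G q θ t ≤ C / δ

/-- FIN: the comparison of the mixing times -/
def S_FIN : Prop := ∀ (q : ℕ) (θ : ℝ) (Δ : ℕ) (ε η : ℝ), 2 ≤ q → 0 < θ → θ ≤ 1 → 0 < ε → ε < 1 →
    0 < η → ∃ n0 : ℕ, ∀ (V : Type) [Fintype V] [DecidableEq V] (G : SimpleGraph V)
    (x0 : V → Fin q) (μ : (V → Fin q) → ℝ), SA G q θ Δ → IsStat G q θ μ →
    n0 ≤ Fintype.card V → tmixU G q θ μ ε ≤ (1 + η) * tmix G q θ x0 μ ε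

end Pool.Agent.Y202.U
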