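import Pool.Agent.Y202.U.Stm

/-! # Project Y202/U: the upper bound for the derivative at the uniform law -/

namespace Pool.Agent.Y202.U

open Finset Pool.Agent.W788.NV

section un

variable {V : Type} [Fintype V] [DecidableEq V] {q : ℕ}

theorem un_mono (f g : (V → Fin q) → ℝ) (h : ∀ x, f x ≤ g x) : un f ≤ un g := by
  unfold un
  exact div_le_div_of_nonneg_right (Finset.sum_le_sum fun x _ => h x) (by positivity)

theorem un_abs (f : (V → Fin q) → ℝ) : |un f| ≤ un (fun x => |f x|) := by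
  unfold un
  rw [abs_div, abs_of_nonneg (by positivity : (0 : ℝ) ≤ (Fintype.card (V → Fin q) : ℝ))]
  exact div_le_div_of_nonneg_right (Finset.abs_sum_le_sum_abs _ _) (by positivity)

theorem un_nonneg (f : (V → Fin q) → ℝ) (h : ∀ x, 0 ≤ f x) : 0 ≤ un f := by
  unfold un
  exact div_nonneg (Finset.sum_nonneg fun x _ => h x) (by positivity)

theorem un_smul (a : ℝ) (f : (V → Fin q) → ℝ) : un (fun x => a * f x) = a * un f := by
  unfold un
  rw [← Finset.mul_sum]
  ring

theorem un_sum {κ : Type} (s : Finset κ) (f : κ → (V → Fin q) → ℝ) :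
    un (fun x => ∑ k ∈ s, f k x) = ∑ k ∈ s, un (f k) := by
  unfold un
  rw [Finset.sum_comm, Finset.sum_div]

theorem un_const (hq : 1 ≤ q) (a : ℝ) : un (V := V) (q := q) (fun _ => a) = a := by
  unfold un
  have : Nonempty (V → Fin q) := ⟨fun _ => ⟨0, by omega⟩⟩
  have hc : (0 : ℝ) < (Fintype.card (V → Fin q) : ℝ) := by exact_mod_cast Fintype.card_pos
  rw [Finset.sum_const, nsmul_eq_mul, Finset.card_univ]
  field_simp

theorem un_sq (hq : 1 ≤ q) (f : (V → Fin q) → ℝ) : (un f) ^ 2 ≤ un (fun x => (f x) ^ 2) := by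
  unfold un
  have : Nonempty (V → Fin q) := ⟨fun _ => ⟨0, by omega⟩⟩
  have hc : (0 : ℝ) < (Fintype.card (V → Fin q) : ℝ) := by exact_mod_cast Fintype.card_pos
  rw [div_pow, div_le_div_iff₀ (by positivity) hc]
  have h := sq_sum_le_card_mul_sum_sq (s := (Finset.univ : Finset (V → Fin q))) (f := f)
  rw [Finset.card_univ] at h
  nlinarith [h, hc]

end un

section pt

variable {V : Type} [Fintype V] [DecidableEq V]

theorem mr_nonneg {G : SimpleGraph V} {q : ℕ} {θ : ℝ} {Δ : ℕ} (h : SA G q θ Δ)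
    (e : (V × Fin q) ⊕ (V × V)) : 0 ≤ mrate G q θ e :=
  (p_tot V G q θ (by have := h.q2; omega) h.t0.le h.t1 h.d1).1 e

theorem pt_mono {G : SimpleGraph V} {q : ℕ} {θ : ℝ} {Δ : ℕ} (h : SA G q θ Δ)
    (f g : (V → Fin q) → ℝ) (x : V → Fin q) (t : ℝ) (ht : 0 ≤ t) (hf : ∀ y, f y ≤ g y) :
    pt G q θ t f x ≤ pt G q θ t g x :=
  p_mk.mono _ _ _ _ _ _ _ _ (mr_nonneg h) ht hf

theorem pt_const (G : SimpleGraph V) (q : ℕ) (θ : ℝ) (a : ℝ) (x : V → Fin q) (t : ℝ) :
    pt G q θ t (fun _ => a) x = a := p_mk.cst _ _ _ _ _ _ _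

theorem pt_nonneg {G : SimpleGraph V} {q : ℕ} {θ : ℝ} {Δ : ℕ} (h : SA G q θ Δ)
    (f : (V → Fin q) → ℝ) (x : V → Fin q) (t : ℝ) (ht : 0 ≤ t) (hf : ∀ y, 0 ≤ f y) :
    0 ≤ pt G q θ t f x := by
  have := pt_mono h (fun _ => 0) f x t ht hf
  rwa [pt_const] at this

theorem pt_abs {G : SimpleGraph V} {q : ℕ} {θ : ℝ} {Δ : ℕ} (h : SA G q θ Δ)
    (f : (V → Fin q) → ℝ) (t : ℝ) (ht : 0 ≤ t) (hf : ∀ y, |f y| ≤ 1) (x : V → Fin q) :
    |pt G q θ t f x| ≤ 1 := by
  rw [abs_le]
  constructor
  · have := pt_mono h (fun _ => -1) f x t ht (fun y => (abs_le.mp (hf y)).1)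
    rwa [pt_const] at this
  · have := pt_mono h f (fun _ => 1) x t ht (fun y => (abs_le.mp (hf y)).2)
    rwa [pt_const] at this

theorem pt_sum (G : SimpleGraph V) (q : ℕ) (θ : ℝ) {κ : Type} [Fintype κ] (c : κ → ℝ)
    (F : κ → (V → Fin q) → ℝ) (x : V → Fin q) (t : ℝ) :
    pt G q θ t (fun y => ∑ k, c k * F k y) x = ∑ k, c k * pt G q θ t (F k) x :=
  p_mk.lin _ _ _ _ _ _ _ _ _

theorem pt_sq {G : SimpleGraph V} {q : ℕ} {θ : ℝ} {Δ : ℕ} (h : SA G q θ Δ)
    (f : (V → Fin q) → ℝ) (x : V → Fin q) (t : ℝ) (ht : 0 ≤ t) :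
    (pt G q θ t f x) ^ 2 ≤ pt G q θ t (fun y => (f y) ^ 2) x := by
  have := p_mk.cs _ _ (mrate G q θ) (act (V := V) (q := q)) f (fun _ => 1) x t (mr_nonneg h) ht
  have h1 : sg (mrate G q θ) (act (V := V) (q := q)) t (fun y => (1 : ℝ) ^ 2) x = 1 := by
    simpa using p_mk.cst _ _ (mrate G q θ) (act (V := V) (q := q)) 1 x t
  rw [h1, mul_one] at this
  simpa [pt] using this

end pt

/-- UP -/
theorem up (h0 : S_C0) (hR : S_RP) (hM : S_MAJ) (hD : S_DEC) (hT : S_TWO) (hTa : S_TAIL)
    (hU : S_UD) (hW : S_W2) : S_UP := by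
  intro q θ Δ k hq ht0 ht1
  obtain ⟨κ, hκ0, hκ1, hRP⟩ := hR q θ Δ hq ht0 ht1
  refine ⟨Real.sqrt ((4 / κ) ^ k * 8) + 2, by positivity, ?_⟩
  intro V _ _ G hS f hf s r u K hs hr hK hu hu1 hu4 hur
  classical
  set g : (V → Fin q) → ℝ := pt G q θ (1 + r) f with hg
  have hg' : g = pt G q θ 1 (pt G q θ r f) := by
    rw [hg]; unfold pt; exact p_mk.add _ _ _ _ _ _ _
  have hfr : ∀ x, |pt G q θ r f x| ≤ 1 := pt_abs hS f r hr hf
  have hosc0 : ∀ (S : Finset V) (h : (V → Fin q) → ℝ) (x : V → Fin q), 0 ≤ osc S h x :=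
    fun S h x => ((h0 V q S x x h x).2.2.2.2).2
  have hosc1 : ∀ (S : Finset V) (c c' : V → Fin q) (h : (V → Fin q) → ℝ) (x : V → Fin q),
      |Dl S c c' h x| ≤ osc S h x := fun S c c' h x => ((h0 V q S c c' h x).2.2.2.2).1
  -- the probabilities
  set P : Finset V → ℝ := fun S => un (pt G q θ s (osc S g)) with hP
  have hP0 : ∀ S, 0 ≤ P S := fun S => un_nonneg _ fun x => pt_nonneg hS _ x s hs (hosc0 S g)
  have hpim0 : ∀ S S0 : Finset V, 0 ≤ pim G q θ s S S0 := by
    intro S S0
    unfold pim src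
    have := p_mk.mono _ _ (mrate G q θ) (opR (V := V) (q := q)) (fun _ => 0)
      (fun σ => if Im S S0 σ then (1 : ℝ) else 0) some s (mr_nonneg hS) hs
      (fun σ => by split_ifs <;> norm_num)
    rw [p_mk.cst] at this
    convert this
  have hWs0 : ∀ S, 0 ≤ Ws G q θ s S := fun S => (hW V G q θ Δ hS).1 s S hs
  -- step 1
  have h1 : |un (gf (mrate G q θ) (act (V := V) (q := q)) (pt G q θ s g))| ≤
      ∑ S : Finset V, 2 ^ S.card * Ws G q θ s S * P S := by
    rw [hU V G q θ Δ hS]
    have hb : ∀ v w : V, ∀ d d' : Fin q,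
        |un (Dl {v, w} (fun _ => d) (fun _ => d') (pt G q θ s g))| ≤
          ∑ S : Finset V, 2 ^ S.card * pim G q θ s S {v, w} * P S := by
      intro v w d d'
      refine (un_abs _).trans ?_
      refine (un_mono _ (fun x => ∑ S : Finset V, 2 ^ S.card * pim G q θ s S {v, w} *
        pt G q θ s (osc S g) x) ?_).trans ?_
      · intro x
        have hm := hM V G q θ Δ hS {v, w} (fun _ => d) (fun _ => d') g x s hs
        have h2 : (1 : ℝ) ≤ 2 ^ ({v, w} : Finset V).card := one_le_pow₀ (by norm_num)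
        have h3 : 0 ≤ |Dl {v, w} (fun _ => d) (fun _ => d') (pt G q θ s g) x| := abs_nonneg _
        nlinarith
      · rw [un_sum]
        refine le_of_eq (Finset.sum_congr rfl fun S _ => ?_)
        rw [un_smul]
    calc |∑ v, ∑ w, mrate G q θ (Sum.inr (v, w)) * (1 / (2 * (q : ℝ) ^ 2) *
        ∑ d : Fin q, ∑ d' : Fin q, un (Dl {v, w} (fun _ => d) (fun _ => d') (pt G q θ s g)))|
        ≤ ∑ v, ∑ w, mrate G q θ (Sum.inr (v, w)) *
          ∑ S : Finset V, 2 ^ S.card * pim G q θ s S {v, w} * P S := by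
          refine (Finset.abs_sum_le_sum_abs _ _).trans (Finset.sum_le_sum fun v _ => ?_)
          refine (Finset.abs_sum_le_sum_abs _ _).trans (Finset.sum_le_sum fun w _ => ?_)
          rw [abs_mul, abs_of_nonneg (mr_nonneg hS _)]
          refine mul_le_mul_of_nonneg_left ?_ (mr_nonneg hS _)
          set T := ∑ S : Finset V, 2 ^ S.card * pim G q θ s S {v, w} * P S with hTdef
          have hT0 : 0 ≤ T := Finset.sum_nonneg fun S _ =>
            mul_nonneg (mul_nonneg (by positivity) (hpim0 _ _)) (hP0 S)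
          rw [abs_mul, abs_of_nonneg (by positivity)]
          have h5 : |∑ d : Fin q, ∑ d' : Fin q,
              un (Dl {v, w} (fun _ => d) (fun _ => d') (pt G q θ s g))| ≤ (q : ℝ) ^ 2 * T := by
            refine (Finset.abs_sum_le_sum_abs _ _).trans ?_
            refine (Finset.sum_le_sum fun d _ => (Finset.abs_sum_le_sum_abs _ _).trans
              (Finset.sum_le_sum fun d' _ => hb v w d d')).trans ?_
            rw [Finset.sum_const, Finset.sum_const, Finset.card_univ, Fintype.card_fin]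
            simp only [nsmul_eq_mul]
            apply le_of_eq; ring
          have hq0 : (0 : ℝ) < q := by exact_mod_cast (by omega : 0 < q)
          calc 1 / (2 * (q : ℝ) ^ 2) * |∑ d : Fin q, ∑ d' : Fin q,
              un (Dl {v, w} (fun _ => d) (fun _ => d') (pt G q θ s g))|
              ≤ 1 / (2 * (q : ℝ) ^ 2) * ((q : ℝ) ^ 2 * T) :=
                mul_le_mul_of_nonneg_left h5 (by positivity)
            _ = T / 2 := by field_simp
            _ ≤ T := by linarith
      _ = ∑ S : Finset V, 2 ^ S.card * Ws G q θ s S * P S := by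
          have e1 : ∀ v w : V, mrate G q θ (Sum.inr (v, w)) *
              ∑ S : Finset V, 2 ^ S.card * pim G q θ s S {v, w} * P S =
              ∑ S : Finset V, 2 ^ S.card * P S * (mrate G q θ (Sum.inr (v, w)) *
                pim G q θ s S {v, w}) := by
            intro v w
            rw [Finset.mul_sum]
            exact Finset.sum_congr rfl fun S _ => by ring
          simp_rw [e1]
          calc ∑ v, ∑ w, ∑ S : Finset V, 2 ^ S.card * P S * (mrate G q θ (Sum.inr (v, w)) *
                pim G q θ s S {v, w})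
              = ∑ S : Finset V, ∑ v, ∑ w, 2 ^ S.card * P S * (mrate G q θ (Sum.inr (v, w)) *
                pim G q θ s S {v, w}) := by
                rw [Finset.sum_comm (s := (Finset.univ : Finset (Finset V)))]
                refine Finset.sum_congr rfl fun v _ => ?_
                exact Finset.sum_comm
            _ = _ := by
                refine Finset.sum_congr rfl fun S _ => ?_
                unfold Ws
                simp_rw [← Finset.mul_sum]
                ring
  -- step 2: Cauchy-Schwarz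
  have h2 : ∑ S : Finset V, κ ^ S.card * (P S) ^ 2 ≤ 1 := by
    have a1 : ∀ S : Finset V, (P S) ^ 2 ≤ un (pt G q θ s (fun x => (osc S g x) ^ 2)) := by
      intro S
      refine (un_sq (by omega) _).trans (un_mono _ _ fun x => ?_)
      exact pt_sq hS _ x s hs
    calc ∑ S : Finset V, κ ^ S.card * (P S) ^ 2
        ≤ ∑ S : Finset V, κ ^ S.card * un (pt G q θ s (fun x => (osc S g x) ^ 2)) :=
          Finset.sum_le_sum fun S _ => mul_le_mul_of_nonneg_left (a1 S) (by positivity)
      _ = un (fun x => ∑ S : Finset V, κ ^ S.card * pt G q θ s (fun x => (osc S g x) ^ 2) x) := by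
          rw [un_sum]
          exact Finset.sum_congr rfl fun S _ => by rw [un_smul]
      _ = un (pt G q θ s (fun x => ∑ S : Finset V, κ ^ S.card * (osc S g x) ^ 2)) := by
          congr 1
          funext x
          rw [pt_sum]
      _ ≤ un (V := V) (q := q) (fun _ => 1) := by
          refine un_mono _ _ fun x => ?_
          have := pt_mono hS (fun x => ∑ S : Finset V, κ ^ S.card * (osc S g x) ^ 2)
            (fun _ => 1) x s hs (fun y => by rw [hg']; exact hRP V G hS _ hfr y)
          rwa [pt_const] at this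
      _ = 1 := un_const (by omega) 1
  have h3 : ∑ S : Finset V, (if S.card ≤ k then 2 ^ S.card * Ws G q θ s S * P S else 0) ≤
      Real.sqrt ((4 / κ) ^ k * ∑ S : Finset V, (if S.card ≤ k then (Ws G q θ s S) ^ 2 else 0)) := by
    apply Real.le_sqrt_of_sq_le
    have hcs := Finset.sum_mul_sq_le_sq_mul_sq (Finset.univ : Finset (Finset V))
      (fun S => if S.card ≤ k then 2 ^ S.card * Ws G q θ s S / Real.sqrt (κ ^ S.card) else 0)
      (fun S => Real.sqrt (κ ^ S.card) * P S)
    have hsq : ∀ S : Finset V, 0 < Real.sqrt (κ ^ S.card) := fun S => Real.sqrt_pos.mpr (by positivity)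
    have e1 : ∀ S : Finset V, (if S.card ≤ k then 2 ^ S.card * Ws G q θ s S /
        Real.sqrt (κ ^ S.card) else 0) * (Real.sqrt (κ ^ S.card) * P S) =
        if S.card ≤ k then 2 ^ S.card * Ws G q θ s S * P S else 0 := by
      intro S
      split_ifs
      · have := (hsq S).ne'
        field_simp
      · simp
    have e2 : ∀ S : Finset V, (Real.sqrt (κ ^ S.card) * P S) ^ 2 = κ ^ S.card * (P S) ^ 2 := by
      intro S
      rw [mul_pow, Real.sq_sqrt (by positivity)]
    simp_rw [e1, e2] at hcs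
    refine hcs.trans ?_
    have hA0 : 0 ≤ ∑ S : Finset V, (if S.card ≤ k then 2 ^ S.card * Ws G q θ s S /
        Real.sqrt (κ ^ S.card) else 0) ^ 2 := Finset.sum_nonneg fun S _ => sq_nonneg _
    refine (mul_le_of_le_one_right hA0 h2).trans ?_
    rw [Finset.mul_sum]
    refine Finset.sum_le_sum fun S _ => ?_
    split_ifs with hc
    · rw [div_pow, Real.sq_sqrt (by positivity), mul_pow]
      have e3 : ((2 : ℝ) ^ S.card) ^ 2 = 4 ^ S.card := by
        rw [← pow_mul, mul_comm, pow_mul]; norm_num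
      rw [e3]
      have e4 : (4 : ℝ) ^ S.card * Ws G q θ s S ^ 2 / κ ^ S.card =
          (4 / κ) ^ S.card * Ws G q θ s S ^ 2 := by
        rw [div_pow]; ring
      rw [e4]
      refine mul_le_mul_of_nonneg_right ?_ (sq_nonneg _)
      refine pow_le_pow_right₀ ?_ hc
      rw [le_div_iff₀ hκ0]; linarith
    · simp
  have h4 : ∑ S : Finset V, (if k < S.card then 2 ^ S.card * Ws G q θ s S * P S else 0) ≤
      u ^ (k + 1) * Fintype.card V * Real.exp (θ / 2) := by
    refine le_trans ?_ (hTa V G q θ Δ hS k s u hs hu hu1 hu4)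
    refine Finset.sum_le_sum fun S _ => ?_
    split_ifs with hc
    · have b1 : P S ≤ (2 * Δ * Real.exp (-θ * r)) ^ S.card := by
        rw [hP]
        have b2 : ∀ x, pt G q θ s (osc S g) x ≤ (2 * Δ * Real.exp (-θ * r)) ^ S.card := by
          intro x
          have := pt_mono hS (osc S g) (fun _ => (2 * Δ * Real.exp (-θ * r)) ^ S.card) x s hs
            (fun y => ?_)
          · rwa [pt_const] at this
          · rw [hg]
            refine (hD V G q θ Δ hS S f hf y (1 + r) (by linarith)).trans ?_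
            refine pow_le_pow_left₀ (by positivity) ?_ _
            refine mul_le_mul_of_nonneg_left ?_ (by positivity)
            apply Real.exp_le_exp.mpr
            nlinarith
        have b3 := un_mono _ (fun _ => (2 * Δ * Real.exp (-θ * r)) ^ S.card) b2
        rwa [un_const (by omega)] at b3
      calc 2 ^ S.card * Ws G q θ s S * P S
          ≤ 2 ^ S.card * Ws G q θ s S * (2 * Δ * Real.exp (-θ * r)) ^ S.card :=
            mul_le_mul_of_nonneg_left b1 (mul_nonneg (by positivity) (hWs0 S))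
        _ = (4 * Δ * Real.exp (-θ * r)) ^ S.card * Ws G q θ s S := by
            rw [mul_right_comm, ← mul_pow]; ring
        _ ≤ (u ^ 2) ^ S.card * Ws G q θ s S :=
            mul_le_mul_of_nonneg_right (pow_le_pow_left₀ (by positivity) hur _) (hWs0 S)
        _ = u ^ (2 * S.card) * Ws G q θ s S := by rw [← pow_mul]
    · exact le_refl _
  have h5 : ∑ S : Finset V, 2 ^ S.card * Ws G q θ s S * P S =
      ∑ S : Finset V, (if S.card ≤ k then 2 ^ S.card * Ws G q θ s S * P S else 0) +
      ∑ S : Finset V, (if k < S.card then 2 ^ S.card * Ws G q θ s S * P S else 0) := by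
    rw [← Finset.sum_add_distrib]
    refine Finset.sum_congr rfl fun S _ => ?_
    by_cases hc : S.card ≤ k
    · rw [if_pos hc, if_neg (by omega), add_zero]
    · rw [if_neg hc, if_pos (by omega), zero_add]
  have hWW : 0 ≤ WW G q θ s := by
    unfold WW; positivity
  set n : ℝ := (Fintype.card V : ℝ) with hn
  have hn0 : 0 ≤ n := by positivity
  have hexp : Real.exp (θ / 2) ≤ 2 := by
    have : Real.exp (θ / 2) ≤ Real.exp (1 / 2) := Real.exp_le_exp.mpr (by linarith)
    have h6 : Real.exp (1 / 2) ^ 2 = Real.exp 1 := by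
      rw [← Real.exp_nat_mul]; norm_num
    have h7 := Real.exp_one_lt_d9
    nlinarith [Real.exp_pos (1 / 2 : ℝ)]
  have h6 : ∑ S : Finset V, (if S.card ≤ k then (Ws G q θ s S) ^ 2 else 0) ≤
      8 * ((1 + 2 * K) ^ k * WW G q θ s + (n + 1) ^ (k + 3) * Real.exp (-θ * K / (2 * Δ))) := by
    refine (hT V G q θ Δ hS k s K hs hK).trans ?_
    have e5 : Real.exp (θ / 2 - θ * K / (2 * Δ)) =
        Real.exp (θ / 2) * Real.exp (-θ * K / (2 * Δ)) := by
      rw [← Real.exp_add]; congr 1; ring
    rw [e5]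
    have a2 : 0 ≤ (1 + 2 * K) ^ k * WW G q θ s := by positivity
    have a3 : 0 ≤ (n + 1) ^ (k + 3) * Real.exp (-θ * K / (2 * Δ)) := by positivity
    nlinarith [mul_le_mul_of_nonneg_right hexp a3]
  calc |un (gf (mrate G q θ) (act (V := V) (q := q)) (pt G q θ s g))|
      ≤ Real.sqrt ((4 / κ) ^ k * ∑ S : Finset V, (if S.card ≤ k then (Ws G q θ s S) ^ 2 else 0)) +
        u ^ (k + 1) * n * Real.exp (θ / 2) := by
        refine h1.trans ?_
        rw [h5]
        exact add_le_add h3 h4
    _ ≤ Real.sqrt ((4 / κ) ^ k * 8) * Real.sqrt ((1 + 2 * K) ^ k * WW G q θ s +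
          (n + 1) ^ (k + 3) * Real.exp (-θ * K / (2 * Δ))) + 2 * (u ^ (k + 1) * n) := by
        refine add_le_add ?_ ?_
        · rw [← Real.sqrt_mul (by positivity)]
          apply Real.sqrt_le_sqrt
          have : (0 : ℝ) ≤ (4 / κ) ^ k := by positivity
          nlinarith [mul_le_mul_of_nonneg_left h6 this]
        · have : 0 ≤ u ^ (k + 1) * n := by positivity
          nlinarith
    _ ≤ (Real.sqrt ((4 / κ) ^ k * 8) + 2) * (Real.sqrt ((1 + 2 * K) ^ k * WW G q θ s +
          (n + 1) ^ (k + 3) * Real.exp (-θ * K / (2 * Δ))) + u ^ (k + 1) * n) := by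
        have b1 := Real.sqrt_nonneg ((4 / κ) ^ k * 8)
        have b2 := Real.sqrt_nonneg ((1 + 2 * K) ^ k * WW G q θ s +
          (n + 1) ^ (k + 3) * Real.exp (-θ * K / (2 * Δ)))
        have b3 : 0 ≤ u ^ (k + 1) * n := by positivity
        nlinarith [mul_nonneg b1 b3, b2]

end Pool.Agent.Y202.U
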