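import Pool.Agent.Y202.U.Up

/-! # Project Y202/U: the upper bound for the distance to the stationary law -/

namespace Pool.Agent.Y202.U

open Finset Pool.Agent.W788.NV

section

variable {V : Type} [Fintype V] [DecidableEq V]

theorem mean_lawU {G : SimpleGraph V} {q : ℕ} {θ : ℝ} {Δ : ℕ} (h : SA G q θ Δ) (t : ℝ)
    (f : (V → Fin q) → ℝ) : mean (lawU G q θ t) f = un (pt G q θ t f) := by
  have hl := (p_law V G q θ (by have := h.q2; omega) h.t0 h.t1 h.d1).2.1
  unfold mean lawU
  have : ∀ y, un (fun x => law G q θ x t y) * f y = un (fun x => law G q θ x t y * f y) := by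
    intro y
    unfold un
    rw [← Finset.sum_mul]
    ring
  simp_rw [this]
  rw [← un_sum]
  congr 1
  funext x
  exact hl x t f

theorem un_deriv {G : SimpleGraph V} {q : ℕ} {θ : ℝ} (g : (V → Fin q) → ℝ) (s : ℝ) :
    HasDerivAt (fun s => un (pt G q θ s g))
      (un (gf (mrate G q θ) (act (V := V) (q := q)) (pt G q θ s g))) s := by
  unfold un
  apply HasDerivAt.div_const
  have h1 : ∀ x ∈ (Finset.univ : Finset (V → Fin q)), HasDerivAt (fun s => pt G q θ s g x)
      (gf (mrate G q θ) (act (V := V) (q := q)) (pt G q θ s g) x) s := by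
    intro x _
    have h2 := p_mk.deriv _ _ (mrate G q θ) (act (V := V) (q := q)) g x s
    rw [p_mk.comm] at h2
    exact h2
  exact HasDerivAt.fun_sum h1

theorem WW_decay {G : SimpleGraph V} {q : ℕ} {θ : ℝ} {Δ : ℕ} (h : SA G q θ Δ) (hB : S_WB)
    (t u : ℝ) (ht : 0 ≤ t) (hu : 0 ≤ u) :
    WW G q θ (t + u) ≤ (Δ : ℝ) ^ 2 * Real.exp (-4 * θ * u) * WW G q θ t := by
  have h3 := (hB V G q θ Δ h t u ht hu).2.2.1
  have hd1 : ∀ v, (1 : ℝ) ≤ (dg G v : ℝ) := fun v => by exact_mod_cast h.d1 v
  have hdD : ∀ v, (dg G v : ℝ) ≤ Δ := fun v => by exact_mod_cast h.dD v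
  have a1 : WW G q θ (t + u) ≤
      ∑ a, ∑ b, (dg G a : ℝ) * dg G b * (Wp G q θ (t + u) a b) ^ 2 := by
    unfold WW
    refine Finset.sum_le_sum fun a _ => Finset.sum_le_sum fun b _ => ?_
    refine le_mul_of_one_le_left (sq_nonneg _) ?_
    nlinarith [hd1 a, hd1 b]
  have a2 : ∑ a, ∑ b, (dg G a : ℝ) * dg G b * (Wp G q θ t a b) ^ 2 ≤ (Δ : ℝ) ^ 2 * WW G q θ t := by
    unfold WW
    rw [Finset.mul_sum]
    refine Finset.sum_le_sum fun a _ => ?_
    rw [Finset.mul_sum]
    refine Finset.sum_le_sum fun b _ => ?_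
    refine mul_le_mul_of_nonneg_right ?_ (sq_nonneg _)
    nlinarith [hd1 a, hd1 b, hdD a, hdD b]
  calc WW G q θ (t + u) ≤ Real.exp (-4 * θ * u) *
        ∑ a, ∑ b, (dg G a : ℝ) * dg G b * (Wp G q θ t a b) ^ 2 := a1.trans h3
    _ ≤ Real.exp (-4 * θ * u) * ((Δ : ℝ) ^ 2 * WW G q θ t) :=
        mul_le_mul_of_nonneg_left a2 (Real.exp_pos _).le
    _ = _ := by ring

end

/-- UPI -/
theorem upi (hUP : S_UP) (hB : S_WB) : S_UPI := by
  intro q θ Δ k hq ht0 ht1
  obtain ⟨C0, hC0, hup⟩ := hUP q θ Δ k hq ht0 ht1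
  refine ⟨C0 * (Δ / (2 * θ) + 1) + 2 * Δ, by positivity, ?_⟩
  intro V _ _ G μ hS hμ t T r u K ht htT hr hK hu hu1 hu4 hur
  classical
  have hlaw := p_law V G q θ (by omega) ht0 ht1 hS.d1
  have hosc := p_osc V G q θ Δ (by omega) ht0 ht1 hS.d1 hS.dD
  set n : ℝ := (Fintype.card V : ℝ) with hn
  have hn0 : 0 ≤ n := by positivity
  set E1 : ℝ := (n + 1) ^ (k + 3) * Real.exp (-θ * K / (2 * Δ)) with hE1
  have hE10 : 0 ≤ E1 := by positivity
  set E2 : ℝ := u ^ (k + 1) * n with hE2
  have hE20 : 0 ≤ E2 := by positivity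
  have hWW : ∀ s, 0 ≤ WW G q θ s := fun s => by unfold WW; positivity
  set A : ℝ := Real.sqrt ((1 + 2 * K) ^ k * WW G q θ t) with hA
  have hA0 : 0 ≤ A := Real.sqrt_nonneg _
  -- key estimate for a test function
  have key : ∀ f : (V → Fin q) → ℝ, (∀ x, |f x| ≤ 1) →
      |un (pt G q θ (t + 1 + r) f) - mean μ f| ≤
        C0 * (Δ / (2 * θ) * A + (T - t) * (Real.sqrt E1 + E2)) + 2 * (n * Δ * Real.exp (-θ * T)) := by
    intro f hf
    set g : (V → Fin q) → ℝ := pt G q θ (1 + r) f with hg
    have hg1 : ∀ x, |g x| ≤ 1 := pt_abs hS f (1 + r) (by linarith) hf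
    have e1 : pt G q θ (t + 1 + r) f = pt G q θ t g := by
      rw [hg]; unfold pt
      rw [add_assoc]
      exact p_mk.add _ _ _ _ _ _ _
    -- derivative bound
    have hder : ∀ s, t ≤ s → |un (gf (mrate G q θ) (act (V := V) (q := q)) (pt G q θ s g))| ≤
        C0 * (Δ * Real.exp (-2 * θ * (s - t)) * A + (Real.sqrt E1 + E2)) := by
      intro s hs
      have h1 := hup V G hS f hf s r u K (by linarith) hr hK hu hu1 hu4 hur
      refine h1.trans ?_
      refine mul_le_mul_of_nonneg_left ?_ hC0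
      have h2 := WW_decay hS hB t (s - t) ht (by linarith)
      rw [add_sub_cancel] at h2
      have h3 : Real.sqrt ((1 + 2 * K) ^ k * WW G q θ s + E1) ≤
          Δ * Real.exp (-2 * θ * (s - t)) * A + Real.sqrt E1 := by
        have h4 : (1 + 2 * K) ^ k * WW G q θ s ≤
            (Δ * Real.exp (-2 * θ * (s - t)) * A) ^ 2 := by
          rw [mul_pow, mul_pow, hA, Real.sq_sqrt (mul_nonneg (by positivity) (hWW t))]
          have h5 : Real.exp (-2 * θ * (s - t)) ^ 2 = Real.exp (-4 * θ * (s - t)) := by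
            rw [← Real.exp_nat_mul]; congr 1; push_cast; ring
          rw [h5]
          calc (1 + 2 * K) ^ k * WW G q θ s ≤ (1 + 2 * K) ^ k *
                ((Δ : ℝ) ^ 2 * Real.exp (-4 * θ * (s - t)) * WW G q θ t) :=
                mul_le_mul_of_nonneg_left h2 (by positivity)
            _ = _ := by ring
        refine (Real.sqrt_le_sqrt (add_le_add_left h4 E1)).trans ?_
        have hb0 : 0 ≤ Δ * Real.exp (-2 * θ * (s - t)) * A := by positivity
        apply Real.sqrt_le_iff.mpr
        refine ⟨add_nonneg hb0 (Real.sqrt_nonneg _), ?_⟩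
        have h6 := Real.sq_sqrt hE10
        nlinarith [mul_nonneg hb0 (Real.sqrt_nonneg E1)]
      linarith
    -- primitive
    set Bf : ℝ → ℝ := fun s => C0 * (Δ * (-Real.exp (-2 * θ * (s - t)) / (2 * θ)) * A +
      (Real.sqrt E1 + E2) * s) with hBf
    have hBd : ∀ s, HasDerivAt Bf
        (C0 * (Δ * Real.exp (-2 * θ * (s - t)) * A + (Real.sqrt E1 + E2))) s := by
      intro s
      have h1 : HasDerivAt (fun s : ℝ => -2 * θ * (s - t)) (-2 * θ * 1) s :=
        ((hasDerivAt_id s).sub_const t).const_mul (-2 * θ)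
      have h2 := (((h1.exp).neg.div_const (2 * θ)).const_mul (Δ : ℝ)).mul_const A
      have h3 := (hasDerivAt_id s).const_mul (Real.sqrt E1 + E2)
      have h4 := (h2.add h3).const_mul C0
      refine h4.congr_deriv ?_
      have hθ : θ ≠ 0 := ht0.ne'
      field_simp
    have hmono : ∀ σ : ℝ, (σ = 1 ∨ σ = -1) →
        σ * (un (pt G q θ T g) - un (pt G q θ t g)) ≤ Bf T - Bf t := by
      intro σ hσ
      have hd : ∀ s, HasDerivAt (fun s => Bf s - σ * un (pt G q θ s g))
          (C0 * (Δ * Real.exp (-2 * θ * (s - t)) * A + (Real.sqrt E1 + E2)) -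
            σ * un (gf (mrate G q θ) (act (V := V) (q := q)) (pt G q θ s g))) s :=
        fun s => (hBd s).sub ((un_deriv g s).const_mul σ)
      have hm : MonotoneOn (fun s => Bf s - σ * un (pt G q θ s g)) (Set.Icc t T) := by
        apply monotoneOn_of_deriv_nonneg (convex_Icc t T)
        · exact fun s _ => (hd s).continuousAt.continuousWithinAt
        · exact fun s _ => (hd s).differentiableAt.differentiableWithinAt
        · intro s hs
          rw [interior_Icc] at hs
          rw [(hd s).deriv]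
          have h1 := abs_le.mp (hder s hs.1.le)
          rcases hσ with h | h <;> subst h <;> linarith [h1.1, h1.2]
      have h2 := hm (Set.left_mem_Icc.mpr htT) (Set.right_mem_Icc.mpr htT) htT
      simp only at h2
      linarith
    have hBdiff : Bf T - Bf t ≤ C0 * (Δ / (2 * θ) * A + (T - t) * (Real.sqrt E1 + E2)) := by
      rw [hBf]
      simp only [sub_self, mul_zero, Real.exp_zero]
      rw [← mul_sub]
      refine mul_le_mul_of_nonneg_left ?_ hC0
      have h1 : 0 ≤ Δ * (Real.exp (-2 * θ * (T - t)) / (2 * θ)) * A := by positivity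
      have h2 : Δ * (-Real.exp (-2 * θ * (T - t)) / (2 * θ)) * A =
        -(Δ * (Real.exp (-2 * θ * (T - t)) / (2 * θ)) * A) := by ring
      rw [h2]
      have h3 : Δ * (-1 / (2 * θ)) * A = -(Δ / (2 * θ) * A) := by ring
      rw [h3]
      nlinarith
    have hUtT : |un (pt G q θ t g) - un (pt G q θ T g)| ≤
        C0 * (Δ / (2 * θ) * A + (T - t) * (Real.sqrt E1 + E2)) := by
      have h1 := hmono 1 (Or.inl rfl)
      have h2 := hmono (-1) (Or.inr rfl)
      rw [abs_le]
      constructor <;> linarith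
    -- comparison with the stationary law at time `T`
    have hst : mean μ f = mean μ (pt G q θ T g) := by
      have h1 := hlaw.2.2 μ hμ (T + (1 + r)) f
      rw [← h1, hg]
      congr 1
      unfold pt
      exact p_mk.add _ _ _ _ _ _ _
    have hx : ∀ x y, pt G q θ T g x - pt G q θ T g y ≤ 2 * (n * Δ * Real.exp (-θ * T)) := by
      intro x y
      refine hosc T 2 g x y (ht.trans htT) ?_
      intro z z'
      have h1 := abs_le.mp (hg1 z)
      have h2 := abs_le.mp (hg1 z')
      linarith [h1.1, h1.2, h2.1, h2.2]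
    have hmu : |un (pt G q θ T g) - mean μ (pt G q θ T g)| ≤
        2 * (n * Δ * Real.exp (-θ * T)) := by
      set h := pt G q θ T g with hh'
      have m1 : ∀ x, |h x - mean μ h| ≤ 2 * (n * Δ * Real.exp (-θ * T)) := by
        intro x
        have h1 : h x - mean μ h = ∑ y, μ y * (h x - h y) := by
          unfold mean
          simp_rw [mul_sub]
          rw [Finset.sum_sub_distrib, ← Finset.sum_mul, hμ.2.1, one_mul]
        rw [h1]
        refine (Finset.abs_sum_le_sum_abs _ _).trans ?_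
        calc ∑ y, |μ y * (h x - h y)| ≤ ∑ y, μ y * (2 * (n * Δ * Real.exp (-θ * T))) := by
              refine Finset.sum_le_sum fun y _ => ?_
              rw [abs_mul, abs_of_nonneg (hμ.1 y)]
              refine mul_le_mul_of_nonneg_left ?_ (hμ.1 y)
              rw [abs_le]
              constructor
              · linarith [hx y x]
              · exact hx x y
          _ = _ := by rw [← Finset.sum_mul, hμ.2.1, one_mul]
      have h2 : un h - mean μ h = un (fun x => h x - mean μ h) := by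
        have : un (fun x => h x - mean μ h) = un h - un (V := V) (q := q) (fun _ => mean μ h) := by
          unfold un
          rw [← sub_div, Finset.sum_sub_distrib]
        rw [this, un_const (by omega)]
      rw [h2]
      refine (un_abs _).trans ((un_mono _ (fun _ => 2 * (n * Δ * Real.exp (-θ * T))) m1).trans ?_)
      rw [un_const (by omega)]
    rw [e1, hst]
    calc |un (pt G q θ t g) - mean μ (pt G q θ T g)|
        = |(un (pt G q θ t g) - un (pt G q θ T g)) +
            (un (pt G q θ T g) - mean μ (pt G q θ T g))| := by congr 1; ring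
      _ ≤ _ := (abs_add_le _ _).trans (add_le_add hUtT hmu)
  -- total variation
  set f : (V → Fin q) → ℝ := fun y => if 0 ≤ lawU G q θ (t + 1 + r) y - μ y then 1 else -1 with hf
  have hf1 : ∀ y, |f y| ≤ 1 := by
    intro y
    rw [hf]
    dsimp only
    split_ifs <;> simp
  have htv : tv (lawU G q θ (t + 1 + r)) μ =
      1 / 2 * (un (pt G q θ (t + 1 + r) f) - mean μ f) := by
    rw [← mean_lawU hS]
    unfold tv mean
    rw [← Finset.sum_sub_distrib]
    congr 1
    refine Finset.sum_congr rfl fun y _ => ?_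
    rw [hf]
    dsimp only
    split_ifs with h
    · rw [abs_of_nonneg h]; ring
    · rw [abs_of_neg (by linarith)]; ring
  rw [htv]
  have h1 := (abs_le.mp (key f hf1)).2
  have hΔ : (0 : ℝ) ≤ Δ := by positivity
  have hTt : 0 ≤ T - t := by linarith
  have h2 : 0 ≤ (T - t) * (Real.sqrt E1 + E2) := mul_nonneg hTt (add_nonneg (Real.sqrt_nonneg _) hE20)
  have h3 : 0 ≤ n * Real.exp (-θ * T) := by positivity
  have h4 : 0 ≤ (Δ : ℝ) / (2 * θ) := by positivity
  have h5 : C0 * (Δ / (2 * θ) * A + (T - t) * (Real.sqrt E1 + E2)) + 2 * (n * Δ * Real.exp (-θ * T)) ≤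
      (C0 * (Δ / (2 * θ) + 1) + 2 * Δ) * (A + (T - t) * (Real.sqrt E1 + E2) +
        n * Real.exp (-θ * T)) := by
    set X := (T - t) * (Real.sqrt E1 + E2)
    set Y := n * Real.exp (-θ * T)
    set D := (Δ : ℝ) / (2 * θ)
    have e : n * Δ * Real.exp (-θ * T) = Δ * Y := by ring
    rw [e]
    have p1 : 0 ≤ C0 * D := mul_nonneg hC0 h4
    nlinarith [mul_nonneg p1 h2, mul_nonneg p1 h3, mul_nonneg hC0 h3, mul_nonneg hC0 hA0,
      mul_nonneg hC0 h2, mul_nonneg hΔ hA0, mul_nonneg hΔ h2, mul_nonneg hΔ h3]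
  have h6 : 0 ≤ C0 * (Δ / (2 * θ) * A + (T - t) * (Real.sqrt E1 + E2)) +
      2 * (n * Δ * Real.exp (-θ * T)) := by positivity
  linarith

end Pool.Agent.Y202.U
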